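import Pool.Agent.W599.CB.Hyper

/-!
# Zariski dense entire curves in double covers of products of projective lines

Let `P (y, t₁, ..., t_n)` be an irreducible polynomial of degree two in `y` whose discriminant with
respect to `y` has degree at most four in each of the variables `t₁, ..., t_n`.  Every projective
variety dominated by the hypersurface `P = 0` has an entire curve with Zariski dense image.

Examples: all double covers of `(ℙ¹)^n` branched along a divisor of multidegree at most
`(4, ..., 4)`, and all hypersurfaces of multidegree at most `(2, ..., 2)` in `(ℙ¹)^(n+1)`; in the
case of equality the smooth ones are Calabi-Yau manifolds of dimension `n`.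

Idea of the proof.  A variety has a Zariski dense entire curve if and only if its function field
embeds in the field `M` of meromorphic functions on `ℂ`.  The point is that for `a, b ∈ M` the cubic
`y² = x³ + a x + b` has a point over `M` with `x` transcendental over any given field of finite
transcendence degree over `ℂ`: the functions `σ²`, `σ² ℘` are limits of the iterates of the
duplication map and so entire in the variable and in `a, b`.  By induction on `n` the equation
`y² = F (t₁, ..., t_n)`, `F` of degree at most four in each variable, has a solution in `M` with
`t₁, ..., t_n` algebraically independent: a solution for `F (c, t₂, ..., t_n)`, `c` a constant, is a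
point of the double cover `y² = F (x, t₂, ..., t_n)` of the `x`-line, which has genus at most one.
-/

namespace Pool.Agent.Results.MP_1209e6_ag.DoubleCoversOfP1s

open Pool.Agent.W599.CB MvPolynomial

/-- Let `P` be an irreducible polynomial in `y, t₁, ..., t_n`, of degree two in the first variable
`y`, whose discriminant with respect to `y` has degree at most four in each `t_i`.  Let `X ⊆ ℙ^N` be a
projective variety dominated by the hypersurface `P = 0`, that is, the Zariski closure of its image
under a rational map `[ξ₀ : ... : ξ_N]`.  Then some holomorphic map `ℂ → X` has a Zariski dense
image in `X`. -/
theorem result (n N : ℕ) (P : MvPolynomial (Fin (n + 1)) ℂ) (hP : Irreducible P)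
    (hdeg : degreeOf 0 P = 2) (hdisc : ∀ i, degreeOf i (disc P) ≤ 4)
    (ξ : Fin (N + 1) → MvPolynomial (Fin (n + 1)) ℂ)
    (hξ : (ratImage {v | eval v P = 0} ξ).Nonempty) :
    IsBrodySpecial (zariskiClosure (ratImage {v | eval v P = 0} ξ)) :=
  brodySpecial_hypersurface hP hdeg hdisc ξ hξ

end Pool.Agent.Results.MP_1209e6_ag.DoubleCoversOfP1s
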