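import Pool.Agent.W602.GT.SFin

/-!
MP_1209e6_ag, Q1: special and Brody-special varieties given by few monomials with large exponents.
-/

set_option autoImplicit false

namespace Pool.Agent.Results.MP_1209e6_ag.SparseVarieties

open Pool.Agent.W602.GT

/-- Let `V` be an irreducible component of the open part `x_j ≠ 0` (`j` in `U`, for example all of
it if `U` is empty) of a complex projective variety given by forms with at most `s` monomials, the
exponents of the `x_j`, `j` not in `U`, being highly divisible. Then `V` is special in the sense of
Campana if and only if there is a holomorphic map from the complex plane to `V` with Zariski-dense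
image. -/
theorem result {n : ℕ} {ι : Type} {U : Set (Fin (n + 1))}
    {F : ι → MvPolynomial (Fin (n + 1)) ℂ} {s N : ℕ} (hF : ∀ e, IsPowSparse U s N (F e))
    (hN : n * ((s + 1) * ((s - 1) * (s - 2) / 2)) ≤ N) {K : Type} [Field K] [Algebra ℂ K] {w : ℕ}
    {y : Fin (n + 1) → K} (hy : SubVarU U F K w y) (hcomp : IsComponentU U F y) :
    Special ℂ K w (OffU U y) ↔ BrodySpecial U y :=
  sparse_special_iff_brody hF hN hy hcomp

end Pool.Agent.Results.MP_1209e6_ag.SparseVarieties
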