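import Pool.Agent.W602.GT.SWar

/-!
MP_1209e6_ag, Q1: special and Brody-special varieties given by sums of few high powers of linear
forms.
-/

set_option autoImplicit false

namespace Pool.Agent.Results.MP_1209e6_ag.WaringVarieties

open Pool.Agent.W602.GT

/-- Let `V` be an irreducible component of a complex projective variety given by sums of at most
`s` powers of linear forms with large exponents. Then `V` is special in the sense of Campana if and
only if there is a holomorphic map from the complex plane to `V` with Zariski-dense image. -/
theorem result {n : ℕ} {ι : Type} {F : ι → MvPolynomial (Fin (n + 1)) ℂ} {s N : ℕ}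
    (hF : ∀ e, IsPowSum s N (F e)) (hN : 1 ≤ N)
    (hsN : n * ((s + 1) * ((s - 1) * (s - 2) / 2)) ≤ N)
    {K : Type} [Field K] [Algebra ℂ K] {w : ℕ} {y : Fin (n + 1) → K}
    (hy : SubVar F K w y) (hcomp : IsComponent F y) :
    Special ℂ K w (fun _ => False) ↔ BrodySpecial ∅ y :=
  waring_special_iff_brody hF hN hsN hy hcomp

end Pool.Agent.Results.MP_1209e6_ag.WaringVarieties
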